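import Pool.Agent.MP_1b0fb5_lc.Final

/-!
# [MP_1b0fb5_lc] prescribed Hausdorff distances fail for 1-random degrees

Stated beside the frozen statement S14438 (same proof, helper65), here with the distance defined through closures
as in the problem, with randomness defined through the uniform measure, and for all sets `c`.
-/

set_option autoImplicit false

open MeasureTheory
open scoped ENNReal

namespace Pool.Agent.Results.MP_1b0fb5_lc.RandomPair

/-- `X ≤_T Y`, for (characteristic functions of) sets of natural numbers -/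
def TuringLE (X Y : ℕ → Bool) : Prop :=
  TuringReducible (fun n => Part.some (X n).toNat) (fun n => Part.some (Y n).toNat)

/-- `X` and `Y` have the same Turing degree -/
def TuringEq (X Y : ℕ → Bool) : Prop := TuringLE X Y ∧ TuringLE Y X

/-- the uniform measure on Cantor space -/
noncomputable def unif : Measure (ℕ → Bool) :=
  Measure.infinitePi (fun _ : ℕ => (2⁻¹ : ℝ≥0∞) • (Measure.count : Measure Bool))

/-- the open set of the sequences which extend one of the strings enumerated by `g` -/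
def enumOpen (g : ℕ → Option (List Bool)) : Set (ℕ → Bool) :=
  {X | ∃ j σ, g j = some σ ∧ ∀ (i : ℕ) (h : i < σ.length), σ[i] = X i}

/-- Martin-Löf randomness: `X` passes every test, that is, every computable enumeration of open sets `U_n` of
measure at most `2⁻ⁿ` -/
def MLRandom (X : ℕ → Bool) : Prop :=
  ∀ f : ℕ → ℕ → Option (List Bool), Computable₂ f →
    (∀ n, unif (enumOpen (f n)) ≤ (2⁻¹ : ℝ≥0∞) ^ n) → ∃ n, X ∉ enumOpen (f n)

/-- upper density of the symmetric difference -/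
noncomputable def delta (X Y : ℕ → Bool) : ℝ :=
  Filter.limsup (fun n : ℕ => (((Finset.range n).filter (fun i => X i ≠ Y i)).card : ℝ) / (n : ℝ))
    Filter.atTop

/-- `X` (its coarse similarity class) is in the closure of the degree of `A` -/
def InClosure (A X : ℕ → Bool) : Prop :=
  ∀ ε : ℝ, 0 < ε → ∃ A' : ℕ → Bool, TuringEq A' A ∧ delta X A' < ε

/-- distance of `X` to the closure of the degree of `A` -/
noncomputable def distTo (X A : ℕ → Bool) : ℝ := sInf {s : ℝ | ∃ Y, InClosure A Y ∧ s = delta X Y}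

/-- the Hausdorff distance of the degrees of `A` and `B` -/
noncomputable def H (A B : ℕ → Bool) : ℝ :=
  max (sSup {r : ℝ | ∃ X, InClosure A X ∧ r = distTo X B})
    (sSup {r : ℝ | ∃ Y, InClosure B Y ∧ r = distTo Y A})

open Pool.Agent.MP_1b0fb5_lc

lemma le_iff (X Y : ℕ → Bool) : TuringLE X Y ↔ red X Y := red_iff X Y

lemma delta_eq (X Y : ℕ → Bool) : delta X Y = dlt X Y := rfl

lemma delta_comm (X Y : ℕ → Bool) : delta X Y = delta Y X := by
  change dlt X Y = dlt Y X
  have h : ∀ X Y : ℕ → Bool, dlt X Y ≤ dlt Y X := by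
    intro X Y
    exact dlt_le_dlt fun n => by rw [dis_comm X Y]; omega
  exact le_antisymm (h X Y) (h Y X)

lemma dis_triangle (X Y Z : ℕ → Bool) (n : ℕ) : dis X Z n ≤ dis X Y n + dis Y Z n := by
  unfold dis
  refine le_trans (Finset.card_le_card ?_) (Finset.card_union_le _ _)
  intro i hi
  rw [Finset.mem_filter] at hi
  rw [Finset.mem_union, Finset.mem_filter, Finset.mem_filter]
  by_cases h : X i = Y i
  · right
    refine ⟨hi.1, ?_⟩
    rw [← h]
    exact hi.2
  · exact Or.inl ⟨hi.1, h⟩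

lemma delta_triangle (X Y Z : ℕ → Bool) : delta X Z ≤ delta X Y + delta Y Z := by
  change dlt X Z ≤ dlt X Y + dlt Y Z
  apply dlt_le_of
  intro ε hε
  have h1 : ∀ᶠ n : ℕ in Filter.atTop, (dis X Y n : ℝ) / n < dlt X Y + ε / 2 :=
    Filter.eventually_lt_of_limsup_lt (lt_add_of_pos_right _ (half_pos hε)) (bdd_above X Y)
  have h2 : ∀ᶠ n : ℕ in Filter.atTop, (dis Y Z n : ℝ) / n < dlt Y Z + ε / 2 :=
    Filter.eventually_lt_of_limsup_lt (lt_add_of_pos_right _ (half_pos hε)) (bdd_above Y Z)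
  filter_upwards [h1, h2] with n h3 h4
  have h5 : (dis X Z n : ℝ) / n ≤ (dis X Y n : ℝ) / n + (dis Y Z n : ℝ) / n := by
    rw [← add_div]
    apply div_le_div_of_nonneg_right _ (Nat.cast_nonneg n)
    exact_mod_cast dis_triangle X Y Z n
  linarith

lemma delta_nonneg (X Y : ℕ → Bool) : 0 ≤ delta X Y := dlt_nonneg X Y

lemma delta_le_one (X Y : ℕ → Bool) : delta X Y ≤ 1 := dlt_le_one X Y

lemma delta_self (X : ℕ → Bool) : delta X X = 0 := by
  refine le_antisymm ?_ (delta_nonneg X X)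
  change dlt X X ≤ 0
  apply dlt_le_of
  intro ε hε
  refine Filter.Eventually.of_forall fun n => ?_
  have : dis X X n = 0 := by simp [dis]
  rw [this]
  simp [hε.le]

lemma inClosure_of_eq {A X : ℕ → Bool} (h : TuringEq X A) : InClosure A X :=
  fun ε hε => ⟨X, h, by rw [delta_self]; exact hε⟩

lemma eq_refl (A : ℕ → Bool) : TuringEq A A := ⟨(le_iff A A).2 (red_refl A), (le_iff A A).2 (red_refl A)⟩

lemma distTo_le {X A Y : ℕ → Bool} (h : InClosure A Y) : distTo X A ≤ delta X Y :=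
  csInf_le ⟨0, by rintro _ ⟨Y', _, rfl⟩; exact delta_nonneg _ _⟩ ⟨Y, h, rfl⟩

lemma distTo_le_one (X A : ℕ → Bool) : distTo X A ≤ 1 :=
  (distTo_le (inClosure_of_eq (eq_refl A))).trans (delta_le_one _ _)

/-- The key inequality. -/
lemma H_le {b : ℕ → Bool} (hb : ∀ F, IsFun F → b ∈ tgt F) {x y : ℕ → Bool} (hxy : TuringLE x y)
    (hyb : TuringLE y b) (c : ℕ → Bool) : H y c ≤ max (6 / 7) (H x c) := by
  have hxy' := (le_iff x y).1 hxy
  have hyb' := (le_iff y b).1 hyb
  unfold H
  refine max_le (le_trans ?_ (le_max_left _ _)) (le_trans (le_trans ?_ (le_max_right _ _)) (le_max_right _ _))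
  · refine csSup_le ⟨_, y, inClosure_of_eq (eq_refl y), rfl⟩ ?_
    rintro _ ⟨X, hX, rfl⟩
    apply le_of_forall_pos_le_add
    intro ε hε
    obtain ⟨X', hX', hd⟩ := hX ε hε
    obtain ⟨C, hC, hC2⟩ := close_computable hb (red_trans ((le_iff _ _).1 hX'.1) hyb')
    have h1 : TuringEq (cod c C) c := ⟨(le_iff _ _).2 (red_cod (red_refl c) (red_computable hC c)),
      (le_iff _ _).2 (red_of_cod c C)⟩
    have h2 : delta X' (cod c C) ≤ 6 / 7 := (dlt_le_dlt (fun n => dis_cod_right c C X' n)).trans hC2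
    have h3 := distTo_le (X := X) (inClosure_of_eq h1)
    have h4 := delta_triangle X X' (cod c C)
    linarith
  · refine csSup_le ⟨_, c, inClosure_of_eq (eq_refl c), rfl⟩ ?_
    rintro _ ⟨Y, hY, rfl⟩
    refine le_trans ?_ (le_csSup ⟨1, ?_⟩ ⟨Y, hY, rfl⟩)
    · refine le_csInf ⟨_, x, inClosure_of_eq (eq_refl x), rfl⟩ ?_
      rintro _ ⟨X, hX, rfl⟩
      apply le_of_forall_pos_le_add
      intro ε hε
      obtain ⟨X', hX', hd⟩ := hX ε hε
      have h1 : TuringEq (cod y X') y :=
        ⟨(le_iff _ _).2 (red_cod (red_refl y) (red_trans ((le_iff _ _).1 hX'.1) hxy')),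
          (le_iff _ _).2 (red_of_cod y X')⟩
      have h2 : delta Y (cod y X') ≤ delta Y X' := dlt_le_dlt (fun n => dis_cod_right y X' Y n)
      have h3 := distTo_le (X := Y) (inClosure_of_eq h1)
      have h4 := delta_triangle Y X X'
      linarith
    · rintro _ ⟨Y', _, rfl⟩
      exact distTo_le_one _ _

lemma enumOpen_eq (g : ℕ → Option (List Bool)) : enumOpen g = opn g := by
  ext X
  unfold enumOpen opn
  simp only [Set.mem_ofPred_eq]
  refine exists_congr fun j => exists_congr fun σ => and_congr_right fun _ => ?_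
  constructor
  · intro h
    apply List.ext_getElem
    · simp
    · intro i h1 h2
      rw [h i h1]
      simp [pre]
  · intro h i hi
    conv_lhs => rw [List.getElem_of_eq h hi]
    simp [pre]

open Classical in
lemma isTest_of {f : ℕ → ℕ → Option (List Bool)} (hf : Computable₂ f)
    (h : ∀ n, unif (enumOpen (f n)) ≤ (2⁻¹ : ℝ≥0∞) ^ n) : IsTest f := by
  refine ⟨hf, fun n M L => ?_⟩
  set T := (Finset.univ : Finset (Fin L → Bool)).filter (fun τ =>
          ∃ j < M, ∃ σ : List Bool, f n j = some σ ∧ σ.length ≤ L ∧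
            ∀ i : Fin L, (i : ℕ) < σ.length → σ.getD i false = τ i) with hT
  have h1 : mu {X | (fun i : Fin L => X i) ∈ T} ≤ (2⁻¹ : ℝ≥0∞) ^ n := by
    refine (measure_mono ?_).trans (h n)
    intro X hX
    simp only [Set.mem_ofPred_eq, hT, Finset.mem_filter, Finset.mem_univ, true_and] at hX
    obtain ⟨j, _, σ, h2, h3, h4⟩ := hX
    refine ⟨j, σ, h2, fun i hi => ?_⟩
    have h5 := h4 ⟨i, lt_of_lt_of_le hi h3⟩ hi
    rw [List.getD_eq_getElem _ _ hi] at h5
    exact h5
  rw [mu_fin] at h1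
  have h2s : (2 : ℝ≥0∞) ^ L ≠ 0 := by positivity
  have h2s' : (2 : ℝ≥0∞) ^ L ≠ ∞ := ENNReal.pow_ne_top (by norm_num)
  have h2k : (2 : ℝ≥0∞) ^ n ≠ 0 := by positivity
  have h2k' : (2 : ℝ≥0∞) ^ n ≠ ∞ := ENNReal.pow_ne_top (by norm_num)
  rw [← ENNReal.inv_pow, ← ENNReal.inv_pow, ← div_eq_mul_inv,
      ENNReal.div_le_iff_le_mul (Or.inl h2s) (Or.inl h2s'), mul_comm ((2 ^ n)⁻¹),
      ← div_eq_mul_inv, ENNReal.le_div_iff_mul_le (Or.inl h2k) (Or.inl h2k')] at h1
  exact_mod_cast h1

lemma random_of {X : ℕ → Bool} (h : ∀ f, IsTest f → ∃ n, X ∉ opn (f n)) : MLRandom X := by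
  intro f hf hm
  obtain ⟨n, hn⟩ := h f (isTest_of hf hm)
  exact ⟨n, by rwa [enumOpen_eq]⟩

/-- There are 1-random sets `a <_T b` such that, for all sets `x ≤_T y ≤_T b` and for every set `c` whatsoever,
`H(y, c) ≤ max (6/7) (H(x, c))`. In particular no `c` has `H(a, c) = 1/2` and `H(b, c) = 1`. -/
theorem result : ∃ a b : ℕ → Bool, MLRandom a ∧ MLRandom b ∧ TuringLE a b ∧ ¬ TuringLE b a ∧
    (∀ x y c : ℕ → Bool, TuringLE x y → TuringLE y b → H y c ≤ max (6 / 7) (H x c)) ∧
    ∀ c : ℕ → Bool, ¬ (H a c = 1 / 2 ∧ H b c = 1) := by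
  obtain ⟨b, hb1, hb2, hb3, hb4⟩ := exists_b
  have hab : TuringLE (evn b) b := (le_iff _ _).2 (red_evn b)
  have hbb : TuringLE b b := (le_iff _ _).2 (red_refl b)
  refine ⟨evn b, b, random_of hb4, random_of hb3, hab, ?_,
    fun x y c hxy hyb => H_le hb1 hxy hyb c, ?_⟩
  · intro hred
    obtain ⟨F, hF, hev⟩ := use_principle _ ((le_iff _ _).1 hred)
    obtain ⟨n, hn⟩ := hb2 F hF
    apply hn
    rw [← hev]
    exact Part.mem_some _
  · rintro c ⟨h1, h2⟩
    have h3 := H_le hb1 hab hbb c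
    rw [h1, h2] at h3
    norm_num at h3

end Pool.Agent.Results.MP_1b0fb5_lc.RandomPair
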